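import Pool.Agent.Lib.MP_efa98f_al.Three77.Nd
import Pool.Agent.Lib.MP_efa98f_al.Three77.Five
import Pool.Agent.Lib.MP_efa98f_al.Sym11
import Pool.Agent.Lib.MP_efa98f_al.UnitAll
import Pool.Agent.Lib.MP_efa98f_al.NT86

open scoped Pointwise

namespace Pool.Agent.Results.MP_efa98f_al.AllButOneCoset

/-- `U(n,ℤ)`: the upper unitriangular integer matrices (ones on the diagonal, zeros below it),
as a subset of `SL(n,ℤ)`. -/
def upperUni (n : ℕ) : Set (Matrix.SpecialLinearGroup (Fin n) ℤ) :=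
  {g | (∀ i, g i i = 1) ∧ ∀ i j, j < i → g i j = 0}

/-- `U⁻(n,ℤ)`: the lower unitriangular integer matrices (ones on the diagonal, zeros above it),
as a subset of `SL(n,ℤ)`. -/
def lowerUni (n : ℕ) : Set (Matrix.SpecialLinearGroup (Fin n) ℤ) :=
  {g | (∀ i, g i i = 1) ∧ ∀ i j, i < j → g i j = 0}

theorem main (g : Matrix.SpecialLinearGroup (Fin 3) ℤ)
    (hg : g 2 2 ≠ 0 ∨ g 1 1 * g 2 2 - g 1 2 * g 2 1 ≠ 0) :
    g ∈ upperUni 3 * lowerUni 3 * upperUni 3 * lowerUni 3 * upperUni 3 * lowerUni 3 := by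
  -- the case `|δ| ≥ 2`
  have hbig : ∀ g : Matrix.SpecialLinearGroup (Fin 3) ℤ,
      2 ≤ (g.1 1 1 * g.1 2 2 - g.1 1 2 * g.1 2 1).natAbs →
      g ∈ Pool.Agent.Lib.MP_efa98f_al.Ext77.S := fun g h =>
    Pool.Agent.Lib.MP_efa98f_al.Nd77.delta_two
      (fun A B δ h1 h2 => Pool.Agent.Lib.MP_efa98f_al.E90.nt_main A B δ h1 h2) g h
  have hstep : ∀ p q : ℤ, q = 1 ∨ q = -1 → Pool.Agent.Lib.MP_efa98f_al.Fam77.FiveStep p q := by
    intro p q hq
    have hq2 : q * q = 1 := by rcases hq with h | h <;> rw [h] <;> norm_num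
    refine ⟨q * (1 - p), 0, 0, 0, 0, 1, q, 1, q, 1, ?_, ?_, ?_, ?_, ?_, Or.inl rfl⟩
    · linear_combination (p - 1) * hq2
    · ring
    · ring
    · ring
    · ring
  have hsmall := fun g => Pool.Agent.Lib.MP_efa98f_al.Sym11.sym_wrap
    (P := Pool.Agent.Lib.MP_efa98f_al.Fam77.FiveStep)
    (fun g' h' => Pool.Agent.Lib.MP_efa98f_al.Fam77.five
      Pool.Agent.Lib.MP_efa98f_al.E22.unit_exists g' h') g
  have key : ∀ d : ℤ, d ≠ 0 → 2 ≤ d.natAbs ∨ d = 1 ∨ d = -1 := by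
    intro d hd; omega
  by_cases hδ : g.1 1 1 * g.1 2 2 - g.1 1 2 * g.1 2 1 = 0
  · have h22 : g.1 2 2 ≠ 0 := by
      rcases hg with h | h
      · exact h
      · exact absurd hδ h
    rcases key _ h22 with h2 | h2
    · obtain ⟨-, e2⟩ := Pool.Agent.Lib.MP_efa98f_al.Ext77.conj_entry g
      have h3 := hbig (Pool.Agent.Lib.MP_efa98f_al.Ext77.w * g⁻¹ *
        Pool.Agent.Lib.MP_efa98f_al.Ext77.w) (by
          unfold Pool.Agent.Lib.MP_efa98f_al.Ext77.delta at e2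
          rw [e2]; exact h2)
      exact Pool.Agent.Lib.MP_efa98f_al.Sym11.of_conj h3
    · exact hsmall g (Or.inl (hstep _ _ h2))
  · rcases key _ hδ with h2 | h2
    · exact hbig g h2
    · exact hsmall g (Or.inr (Or.inr (Or.inl (hstep _ _ h2))))

/-- Every `g ∈ SL(3,ℤ)` for which `g₃₃` and `g₂₂ g₃₃ - g₂₃ g₃₂` are not both `0` lies in
`(U(3,ℤ) U⁻(3,ℤ))³`. -/
theorem result : ∀ g : Matrix.SpecialLinearGroup (Fin 3) ℤ,
    (g 2 2 ≠ 0 ∨ g 1 1 * g 2 2 - g 1 2 * g 2 1 ≠ 0) →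
      g ∈ upperUni 3 * lowerUni 3 * upperUni 3 * lowerUni 3 * upperUni 3 * lowerUni 3 :=
  fun g hg => main g hg

/-- Corollary: `SL(3,ℤ) = (U(3,ℤ) U⁻(3,ℤ))³ U(3,ℤ)`. -/
theorem seven :
    upperUni 3 * lowerUni 3 * upperUni 3 * lowerUni 3 * upperUni 3 * lowerUni 3 * upperUni 3 =
      Set.univ := by
  refine Set.eq_univ_of_forall fun g => ?_
  -- an upper unitriangular `u` with `(g u)₃₃ ≠ 0`
  obtain ⟨y, z, hyz⟩ : ∃ y z : ℤ, g.1 2 0 * y + g.1 2 1 * z + g.1 2 2 ≠ 0 := by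
    by_cases h2 : g.1 2 2 = 0
    · by_cases h0 : g.1 2 0 = 0
      · by_cases h1 : g.1 2 1 = 0
        · exfalso
          have hdet := g.2
          rw [Matrix.det_fin_three, h0, h1, h2] at hdet
          simp at hdet
        · exact ⟨0, 1, by rw [h2]; simpa using h1⟩
      · exact ⟨1, 0, by rw [h2]; simpa using h0⟩
    · exact ⟨0, 0, by simpa using h2⟩
  have hu := Pool.Agent.Lib.MP_efa98f_al.Ext77.up_mem 0 y z
  obtain ⟨u, hudef⟩ : ∃ u, u = Pool.Agent.Lib.MP_efa98f_al.Ext77.up 0 y z := ⟨_, rfl⟩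
  have hinv : u⁻¹ ∈ upperUni 3 := by
    have e : u⁻¹ = Pool.Agent.Lib.MP_efa98f_al.Ext77.up 0 (-y) (-z) := by
      rw [inv_eq_iff_mul_eq_one, hudef]
      apply Subtype.ext
      show (Pool.Agent.Lib.MP_efa98f_al.Ext77.up 0 y z).1 *
        (Pool.Agent.Lib.MP_efa98f_al.Ext77.up 0 (-y) (-z)).1 = 1
      unfold Pool.Agent.Lib.MP_efa98f_al.Ext77.up
      ext i j
      fin_cases i <;> fin_cases j <;> simp [Matrix.mul_apply, Fin.sum_univ_three]
    rw [e]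
    exact Pool.Agent.Lib.MP_efa98f_al.Ext77.up_mem 0 (-y) (-z)
  have h22 : (g * u).1 2 2 ≠ 0 := by
    have e : (g * u).1 2 2 = g.1 2 0 * y + g.1 2 1 * z + g.1 2 2 := by
      have e1 : (g * u).1 = g.1 * (Pool.Agent.Lib.MP_efa98f_al.Ext77.up 0 y z).1 := by
        rw [hudef]; rfl
      rw [e1]
      unfold Pool.Agent.Lib.MP_efa98f_al.Ext77.up
      simp [Matrix.mul_apply, Fin.sum_univ_three]
    rw [e]; exact hyz
  have hmem := main (g * u) (Or.inl h22)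
  have hfin : g = (g * u) * u⁻¹ := by group
  rw [hfin]
  exact Set.mul_mem_mul hmem hinv

end Pool.Agent.Results.MP_efa98f_al.AllButOneCoset
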