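import Pool.Agent.Lib.MP_efa98f_al.Crit88

open scoped Pointwise

namespace Pool.Agent.Results.MP_efa98f_al.ThreeCriterion

/-- `U(n,ℤ)`: the upper unitriangular integer matrices (ones on the diagonal, zeros below it),
as a subset of `SL(n,ℤ)`. -/
def upperUni (n : ℕ) : Set (Matrix.SpecialLinearGroup (Fin n) ℤ) :=
  {g | (∀ i, g i i = 1) ∧ ∀ i j, j < i → g i j = 0}

/-- `U⁻(n,ℤ)`: the lower unitriangular integer matrices (ones on the diagonal, zeros above it),
as a subset of `SL(n,ℤ)`. -/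
def lowerUni (n : ℕ) : Set (Matrix.SpecialLinearGroup (Fin n) ℤ) :=
  {g | (∀ i, g i i = 1) ∧ ∀ i j, i < j → g i j = 0}

/-- `SL(3,ℤ) = (U(3,ℤ) U⁻(3,ℤ))³` holds if and only if a certain chain of nine divisibilities in
eight unknown integers is solvable for every coprime pair `β, ε`. -/
theorem result :
    upperUni 3 * lowerUni 3 * upperUni 3 * lowerUni 3 * upperUni 3 * lowerUni 3 = Set.univ ↔
      ∀ β ε : ℤ, IsCoprime β ε →
        ∃ e B A V W k n f : ℤ, β ∣ e - ε ∧ e ∣ B - β ∧ B ∣ A - e ∧ A ∣ V - B ∧ V ∣ W - A ∧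
          W ∣ k * n - V ∧ n ∣ W - 1 ∧ k ∣ W - f ∧ f ∣ k - 1 :=
  Pool.Agent.Lib.MP_efa98f_al.Crit88.univ_iff

end Pool.Agent.Results.MP_efa98f_al.ThreeCriterion
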